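import Pool.Agent.Q259.CF.Fix
import Pool.Agent.Q68.CJ.Abs

/-!
# Project CF (helper7), job D4H

The abstract part is `Pool/Agent/Q68/CJ/Abs.lean` (helper68).
-/

set_option autoImplicit false
set_option linter.unusedSectionVars false

namespace Pool.Agent.Q38.CF

open Polynomial Pool.Agent.Q7.CF Pool.Agent.Q259.CF
open Pool.Agent.Q68.CJ (Sm exK norm_eq rho_eq unit_at not_le_ker)

section

variable {p r : ℕ} {L M : Type} [Field L] [Field M]

theorem sF_comp (D a b c : L) (ha : a ^ p = 1) (hb : b ^ p = 1) (hc : c ^ p = 1) (h : a * b = c)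
    (x : RF p D) : sF p D a ha (sF p D b hb x) = sF p D c hc x := by
  have e : (sF p D a ha).comp (sF p D b hb) = sF p D c hc := by
    apply AdjoinRoot.algHom_ext
    change sF p D a ha (sF p D b hb (YF p D)) = sF p D c hc (YF p D)
    have h1 : ∀ z : L, sF p D a ha (algebraMap L (RF p D) z) = algebraMap L (RF p D) z := fun z =>
      sF_of p D a ha (C z)
    rw [sF_YF, sF_YF, map_mul, h1, sF_YF, ← mul_assoc, ← map_mul, mul_comm b a, h]
  exact DFunLike.congr_fun e x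

theorem sg_comp (D a b c : L) (ha : a ^ p = 1) (hb : b ^ p = 1) (hc : c ^ p = 1) (h : a * b = c)
    (x : BQ p r D) : sg p r D a ha (sg p r D b hb x) = sg p r D c hc x :=
  Subtype.ext (sF_comp D a b c ha hb hc h x)

theorem sg_id (D a : L) (ha : a ^ p = 1) (h : a = 1) (x : BQ p r D) : sg p r D a ha x = x := by
  subst h
  have e : sF p D 1 ha = AlgHom.id L[X] (RF p D) := by
    apply AdjoinRoot.algHom_ext
    change sF p D 1 ha (YF p D) = YF p D
    rw [sF_YF, map_one, one_mul]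
  exact Subtype.ext (DFunLike.congr_fun e (x : RF p D))

/-- the inverse of `σ` -/
theorem sg_inv (hp : p ≠ 0) (D a : L) (ha : a ^ p = 1) (ha' : (a ^ (p - 1)) ^ p = 1) (x : BQ p r D) :
    sg p r D a ha (sg p r D (a ^ (p - 1)) ha' x) = x ∧
      sg p r D (a ^ (p - 1)) ha' (sg p r D a ha x) = x := by
  have h1 : a * a ^ (p - 1) = 1 := by
    rw [← pow_succ', Nat.sub_add_cancel (Nat.pos_of_ne_zero hp), ha]
  constructor
  · rw [sg_comp D _ _ 1 ha ha' (one_pow p) h1]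
    exact sg_id D 1 _ rfl x
  · rw [sg_comp D _ _ 1 ha' ha (one_pow p) (by rw [mul_comm, h1])]
    exact sg_id D 1 _ rfl x

theorem sg_inj (hp : p ≠ 0) (D a : L) (ha : a ^ p = 1) : Function.Injective (sg p r D a ha) := by
  have ha' : (a ^ (p - 1)) ^ p = 1 := by rw [← pow_mul, mul_comm, pow_mul, ha, one_pow]
  intro x y hxy
  rw [← (sg_inv hp D a ha ha' x).2, ← (sg_inv hp D a ha ha' y).2, hxy]

theorem sg_alg (D a : L) (ha : a ^ p = 1) (c : L) :
    sg p r D a ha (algebraMap L (BQ p r D) c) = algebraMap L (BQ p r D) c :=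
  Subtype.ext (sF_of p D a ha (C c))

theorem sg_uu (D a : L) (ha : a ^ p = 1) : sg p r D a ha (uu p r D) = uu p r D := by
  apply Subtype.ext
  rw [sg_val]
  change sF p D a ha (XF p D ^ p) = XF p D ^ p
  rw [map_pow, sF_XF]

theorem sg_vb (D a : L) (ha : a ^ p = 1) (i : ℕ) :
    sg p r D a ha (vb p r D i) = algebraMap L (BQ p r D) (a ^ (r * i % p)) * vb p r D i := by
  apply Subtype.ext
  rw [sg_val]
  change sF p D a ha (XF p D ^ i * YF p D ^ (r * i % p)) =
    algebraMap L (RF p D) (a ^ (r * i % p)) * (XF p D ^ i * YF p D ^ (r * i % p))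
  rw [map_mul, map_pow, map_pow, sF_XF, sF_YF, mul_pow, map_pow]
  ring

theorem sg_vv (D a : L) (ha : a ^ p = 1) :
    sg p r D a ha (vv p r D) = algebraMap L (BQ p r D) (a ^ r) * vv p r D := by
  apply Subtype.ext
  rw [sg_val]
  change sF p D a ha (XF p D * YF p D ^ r) =
    algebraMap L (RF p D) (a ^ r) * (XF p D * YF p D ^ r)
  rw [map_mul, map_pow, sF_XF, sF_YF, mul_pow, map_pow]
  ring

/-- `σ` maps the ideals of the two points into themselves -/
theorem sg_t1 (D a : L) (ha : a ^ p = 1) (x : BQ p r D) (hx : x ∈ t1 p r D) : sg p r D a ha x ∈ t1 p r D := by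
  unfold t1 at hx ⊢
  rw [Ideal.mem_comap] at hx ⊢
  change sF p D a ha (x : RF p D) ∈ _
  change (x : RF p D) ∈ _ at hx
  rw [Ideal.mem_span_singleton'] at hx ⊢
  obtain ⟨w, hw⟩ := hx
  refine ⟨sF p D a ha w, ?_⟩
  rw [← hw, map_mul, sF_XF]

theorem sg_t2 (D a : L) (ha : a ^ p = 1) (x : BQ p r D) (hx : x ∈ t2 p r D) : sg p r D a ha x ∈ t2 p r D := by
  unfold t2 at hx ⊢
  rw [Ideal.mem_comap] at hx ⊢
  change sF p D a ha (x : RF p D) ∈ _
  change (x : RF p D) ∈ _ at hx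
  rw [Ideal.mem_span_singleton'] at hx ⊢
  obtain ⟨w, hw⟩ := hx
  refine ⟨sF p D a ha w * algebraMap L (RF p D) a, ?_⟩
  rw [← hw, map_mul, sF_YF, mul_assoc]

theorem bc_t1 (φ : L →+* M) (D : L) (D' : M) (h : φ D = D') (x : BQ p r D) (hx : x ∈ t1 p r D) :
    bc p r φ D D' h x ∈ t1 p r D' := by
  unfold t1 at hx ⊢
  rw [Ideal.mem_comap] at hx ⊢
  change bF p φ D D' h (x : RF p D) ∈ _
  change (x : RF p D) ∈ _ at hx
  rw [Ideal.mem_span_singleton'] at hx ⊢
  obtain ⟨w, hw⟩ := hx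
  refine ⟨bF p φ D D' h w, ?_⟩
  rw [← hw, map_mul, bF_XF]

theorem bc_t2 (φ : L →+* M) (D : L) (D' : M) (h : φ D = D') (x : BQ p r D) (hx : x ∈ t2 p r D) :
    bc p r φ D D' h x ∈ t2 p r D' := by
  unfold t2 at hx ⊢
  rw [Ideal.mem_comap] at hx ⊢
  change bF p φ D D' h (x : RF p D) ∈ _
  change (x : RF p D) ∈ _ at hx
  rw [Ideal.mem_span_singleton'] at hx ⊢
  obtain ⟨w, hw⟩ := hx
  refine ⟨bF p φ D D' h w, ?_⟩
  rw [← hw, map_mul, bF_YF]

/-- compatibility of values -/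
theorem ev_comp {B B' : Type} [CommRing B] [CommRing B'] [Algebra L B] [Algebra M B'] (e : B →ₐ[L] L)
    (e' : B' →ₐ[M] M) (f : B →+* B') (φ : L →+* M)
    (hf : ∀ a, f (algebraMap L B a) = algebraMap M B' (φ a))
    (ht : ∀ b, e b = 0 → e' (f b) = 0) (b : B) : e' (f b) = φ (e b) := by
  have h1 : e (b - algebraMap L B (e b)) = 0 := by
    rw [map_sub, e.commutes]
    exact sub_self _
  have h2 := ht _ h1
  rw [map_sub, hf, map_sub, e'.commutes, sub_eq_zero] at h2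
  exact h2

variable [Fact p.Prime] [Ok p r]

theorem bc_sg (hbsc : S_BSC) (φ : L →+* M) (D a : L) (D' a' : M) (h : φ D = D') (haa : φ a = a')
    (ha : a ^ p = 1) (ha' : a' ^ p = 1) (x : BQ p r D) :
    bc p r φ D D' h (sg p r D a ha x) = sg p r D' a' ha' (bc p r φ D D' h x) := by
  have e : (bc p r φ D D' h).comp (sg p r D a ha) = (sg p r D' a' ha').comp (bc p r φ D D' h) := by
    apply hom_ext hbsc
    · intro c
      rw [RingHom.comp_apply, RingHom.comp_apply, sg_alg, bc_alg, sg_alg]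
    · rw [RingHom.comp_apply, RingHom.comp_apply, sg_uu, bc_uu, sg_uu]
    · intro i
      rw [RingHom.comp_apply, RingHom.comp_apply, sg_vb, map_mul, bc_alg, bc_vb, sg_vb, map_pow, haa]
  exact RingHom.congr_fun e x

theorem bc_fix (hbsc : S_BSC) (i : L →+* M) (D : L) (D' : M) (hD : i D = D') (τ : M →+* M)
    (hτ : τ D' = D') (h : ∀ x, τ (i x) = i x) (I : Ideal (BQ p r D)) :
    (I.map (bc p r i D D' hD)).map (bc p r τ D' D' hτ) = I.map (bc p r i D D' hD) := by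
  rw [Ideal.map_map]
  congr 1
  apply hom_ext hbsc
  · intro a
    rw [RingHom.comp_apply, bc_alg, bc_alg, h]
  · rw [RingHom.comp_apply, bc_uu, bc_uu]
  · intro j
    rw [RingHom.comp_apply, bc_vb, bc_vb]

end

theorem sim_map' {B B' : Type} [CommRing B] [CommRing B'] {I J : Ideal B} (h : Sim I J) (f : B →+* B')
    (hf : Function.Injective f) : Sim (I.map f) (J.map f) := by
  obtain ⟨a, b, ha, hb, h⟩ := h
  refine ⟨f a, f b, (map_ne_zero_iff f hf).2 ha, (map_ne_zero_iff f hf).2 hb, ?_⟩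
  have h1 := congrArg (Ideal.map f) h
  rw [Ideal.map_mul, Ideal.map_mul, Ideal.map_span, Ideal.map_span, Set.image_singleton,
    Set.image_singleton] at h1
  exact h1

theorem eval_map_hom {L M : Type} [Field L] [Field M] (φ : L →+* M) (g : L[X]) (x : L) :
    (g.map φ).eval (φ x) = φ (g.eval x) := by
  rw [eval_map, eval₂_at_apply]

/-- JOB D4H -/
theorem d4h : S_BSC → S_DED → S_NMM → S_MV → S_BC → S_NI → S_AMB → S_D4H := by
  intro hBSC hDED hNMM hMV _ hNI hAMB p r _ _ L _ _ ζ hζ D hD0 I hI hnI M _ i D' hD h J hJ hsim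
  have hp := (Fact.out : p.Prime)
  have hchar : CharZero M := charZero_of_injective_ringHom i.injective
  have hD'0 : D' ≠ 0 := by
    rw [← hD]
    exact (_root_.map_ne_zero i).2 hD0
  have hded : IsDedekindDomain (BQ p r D) := (hDED p r L D hD0).1
  have hded' : IsDedekindDomain (BQ p r D') := (hDED p r M D' hD'0).1
  obtain ⟨-, -, -, nz, -, -, -, -, -, -, -, -, -, -, hnu⟩ := hNMM p r L D hD0
  obtain ⟨-, -, -, -, -, -, hm1', hm2', ht10', ht20', ht12', hprod', -, -, -⟩ := hNMM p r M D' hD'0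
  obtain ⟨-, -, -, ⟨f1, hf1, hf1u, -, -⟩, ⟨f2, hf2, hf2u, -, -⟩⟩ := hBSC p r L D
  obtain ⟨-, -, -, ⟨g1, hg1, hg1u, -, -⟩, ⟨g2, hg2, hg2u, -, -⟩⟩ := hBSC p r M D'
  obtain ⟨I1, hI1, hII1, hI1a, hI1b⟩ := (hMV p r L D hD0).1 I hI
  obtain ⟨J1, hJ1, hJJ1, hJ1a, hJ1b⟩ := (hMV p r M D' hD'0).1 J hJ
  have hnI1 : nm p r D I1 ≠ 0 := fun e => hI1a (((nz I1 hI1).1).1 e)
  obtain ⟨s, hs0, hs⟩ := (hMV p r L D hD0).2 I I1 hI hI1 hII1 hnI hnI1
  obtain ⟨σ, hσ⟩ : ∃ σ : BQ p r D' →+* BQ p r D', σ = sg p r D' (i ζ) h := ⟨_, rfl⟩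
  obtain ⟨e1, he1⟩ : ∃ e1 : BQ p r D' →+* M, e1 = (g1 : BQ p r D' →+* M) := ⟨_, rfl⟩
  obtain ⟨e2, he2⟩ : ∃ e2 : BQ p r D' →+* M, e2 = (g2 : BQ p r D' →+* M) := ⟨_, rfl⟩
  have he1' : ∀ b, e1 b = g1 b := fun b => by rw [he1]; rfl
  have he2' : ∀ b, e2 b = g2 b := fun b => by rw [he2]; rfl
  have hker1 : t1 p r D' = RingHom.ker e1 := by rw [he1]; exact hg1.symm
  have hker2 : t2 p r D' = RingHom.ker e2 := by rw [he2]; exact hg2.symm
  have hσinj : Function.Injective σ := by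
    rw [hσ]
    exact sg_inj hp.ne_zero D' (i ζ) h
  -- values of the conjugates
  have hS1' : ∀ (a : M) (ha : a ^ p = 1) (b : BQ p r D'), e1 (sg p r D' a ha b) = e1 b := by
    intro a ha b
    rw [he1', he1']
    refine ev_comp g1 g1 (sg p r D' a ha) (RingHom.id M) (fun c => sg_alg D' a ha c) (fun x hx => ?_) b
    have hx' : x ∈ t1 p r D' := by rw [← hg1]; exact hx
    have := sg_t1 D' a ha x hx'
    rw [← hg1] at this
    exact this
  have hS2' : ∀ (a : M) (ha : a ^ p = 1) (b : BQ p r D'), e2 (sg p r D' a ha b) = e2 b := by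
    intro a ha b
    rw [he2', he2']
    refine ev_comp g2 g2 (sg p r D' a ha) (RingHom.id M) (fun c => sg_alg D' a ha c) (fun x hx => ?_) b
    have hx' : x ∈ t2 p r D' := by rw [← hg2]; exact hx
    have := sg_t2 D' a ha x hx'
    rw [← hg2] at this
    exact this
  have hσ1 : ∀ b, e1 (σ b) = e1 b := by
    intro b
    rw [hσ]
    exact hS1' _ h b
  have hσ2 : ∀ b, e2 (σ b) = e2 b := by
    intro b
    rw [hσ]
    exact hS2' _ h b
  have hc1 : ∀ m, e1 (algebraMap M (BQ p r D') m) = m := by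
    intro m
    rw [he1']
    exact g1.commutes m
  have hc2 : ∀ m, e2 (algebraMap M (BQ p r D') m) = m := by
    intro m
    rw [he2']
    exact g2.commutes m
  have hu : ∀ u : BQ p r D', IsUnit u → ∃ m : M, m ≠ 0 ∧ u = algebraMap M (BQ p r D') m := by
    intro u hu
    obtain ⟨w, hw⟩ := hu.exists_right_inv
    exact unit_const hBSC D' u w hw
  obtain ⟨IM, hIM⟩ : ∃ IM : Ideal (BQ p r D'), IM = I1.map (bc p r i D D' hD) := ⟨_, rfl⟩
  have hbinj : Function.Injective (bc p r i D D' hD) := bc_inj i D D' hD hBSC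
  have hIM0 : IM ≠ ⊥ := by
    rw [hIM, Ne, Ideal.map_eq_bot_iff_of_injective hbinj]
    exact hI1
  have hsim1 : Sm (IM * J1.map σ) J1 := by
    have h1 : Sm (I.map (bc p r i D D' hD) * J.map σ) J := by
      rw [hσ]
      exact hsim
    have h2 : Sm (I.map (bc p r i D D' hD)) (I1.map (bc p r i D D' hD)) := sim_map' hII1 _ hbinj
    have h3 : Sm J J1 := hJJ1
    rw [hIM]
    exact (h2.symm.mul (h3.symm.map σ hσinj)).trans (h1.trans h3)
  -- values of the images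
  have hbc1 : ∀ b : BQ p r D, e1 (bc p r i D D' hD b) = i (f1 b) := by
    intro b
    rw [he1']
    refine ev_comp f1 g1 (bc p r i D D' hD) i (fun c => bc_alg i D D' hD c) (fun x hx => ?_) b
    have hx' : x ∈ t1 p r D := by rw [← hf1]; exact hx
    have := bc_t1 i D D' hD x hx'
    rw [← hg1] at this
    exact this
  have hbc2 : ∀ b : BQ p r D, e2 (bc p r i D D' hD b) = i (f2 b) := by
    intro b
    rw [he2']
    refine ev_comp f2 g2 (bc p r i D D' hD) i (fun c => bc_alg i D D' hD c) (fun x hx => ?_) b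
    have hx' : x ∈ t2 p r D := by rw [← hf2]; exact hx
    have := bc_t2 i D D' hD x hx'
    rw [← hg2] at this
    exact this
  have hIMa : ¬ IM ≤ RingHom.ker e1 := by
    obtain ⟨x, hx, hx'⟩ := SetLike.not_le_iff_exists.1 hI1a
    intro hle
    have h1 : bc p r i D D' hD x ∈ RingHom.ker e1 := hle (by rw [hIM]; exact Ideal.mem_map_of_mem _ hx)
    rw [RingHom.mem_ker, hbc1, map_eq_zero] at h1
    apply hx'
    rw [← hf1]
    exact h1
  have hIMb : ¬ IM ≤ RingHom.ker e2 := by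
    obtain ⟨x, hx, hx'⟩ := SetLike.not_le_iff_exists.1 hI1b
    intro hle
    have h1 : bc p r i D D' hD x ∈ RingHom.ker e2 := hle (by rw [hIM]; exact Ideal.mem_map_of_mem _ hx)
    rw [RingHom.mem_ker, hbc2, map_eq_zero] at h1
    apply hx'
    rw [← hf2]
    exact h1
  rw [hker1] at hJ1a
  rw [hker2] at hJ1b
  have hP1 : (RingHom.ker e1).IsPrime := RingHom.ker_isPrime e1
  have hP2 : (RingHom.ker e2).IsPrime := RingHom.ker_isPrime e2
  have hJσa : ¬ J1.map σ ≤ RingHom.ker e1 := not_le_ker (τ := RingHom.id M) (fun b => hσ1 b) hJ1a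
  have hJσb : ¬ J1.map σ ≤ RingHom.ker e2 := not_le_ker (τ := RingHom.id M) (fun b => hσ2 b) hJ1b
  obtain ⟨a, b, ha, hb, hab⟩ := hsim1
  obtain ⟨β, α, hβ1, hβ2, hα1, hα2, -, hαβ⟩ := unit_at (P := RingHom.ker e1) (Q := RingHom.ker e2) hb hab
    (fun hle => (hP1.mul_le.1 hle).elim hIMa hJσa) (fun hle => (hP2.mul_le.1 hle).elim hIMb hJσb)
    hJ1a hJ1b
  rw [RingHom.mem_ker] at hβ1 hβ2 hα1 hα2
  -- the norm
  have hζ1 : ζ ^ p = 1 := hζ.pow_eq_one
  obtain ⟨g, -, hg, hg0, hgD⟩ := hNI p r L ζ hζ1 hζ D hD0 I1 hI1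
  have hpw : ∀ j : ℕ, ((i ζ) ^ j) ^ p = 1 := fun j => by rw [← pow_mul, mul_comm, pow_mul, h, one_pow]
  obtain ⟨S, hS⟩ : ∃ S : ℕ → BQ p r D' →+* BQ p r D', S = fun j => sg p r D' ((i ζ) ^ j) (hpw j) := ⟨_, rfl⟩
  have hS0 : ∀ b, S 0 b = b := by
    intro b
    rw [hS]
    exact sg_id D' _ _ (pow_zero _) b
  have hSs : ∀ j b, S (j + 1) b = S j (σ b) := by
    intro j b
    rw [hS, hσ]
    exact (sg_comp D' ((i ζ) ^ j) (i ζ) ((i ζ) ^ (j + 1)) (hpw j) h (hpw (j + 1)) (pow_succ _ _).symm b).symm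
  have hSp : ∀ b, S p b = b := by
    intro b
    rw [hS]
    exact sg_id D' _ _ h b
  have hSinj : ∀ j, Function.Injective (S j) := by
    intro j
    rw [hS]
    exact sg_inj hp.ne_zero D' _ (hpw j)
  have hS1 : ∀ j b, e1 (S j b) = e1 b := by
    intro j b
    rw [hS]
    exact hS1' _ (hpw j) b
  have hS2 : ∀ j b, e2 (S j b) = e2 b := by
    intro j b
    rw [hS]
    exact hS2' _ (hpw j) b
  have hgM : ∏ j ∈ Finset.range p, IM.map (S j) =
      Ideal.span {aeval (uu p r D') (g.map i)} := by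
    have h1 := congrArg (Ideal.mapHom (bc p r i D D' hD)) hg
    rw [map_prod] at h1
    change _ = Ideal.map (bc p r i D D' hD) (Ideal.span {aeval (uu p r D) g}) at h1
    rw [Ideal.map_span, Set.image_singleton, bc_aeval] at h1
    rw [← h1]
    refine Finset.prod_congr rfl fun j _ => ?_
    change IM.map (S j) = (I1.map (sgi p r D ζ hζ1 j)).map (bc p r i D D' hD)
    rw [hIM, hS]
    have hpwL : (ζ ^ j) ^ p = 1 := by rw [← pow_mul, mul_comm, pow_mul, hζ1, one_pow]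
    change (I1.map (bc p r i D D' hD)).map (sg p r D' ((i ζ) ^ j) (hpw j)) =
      (I1.map (sg p r D (ζ ^ j) (by rw [← pow_mul, mul_comm, pow_mul, hζ1, one_pow]))).map (bc p r i D D' hD)
    rw [Ideal.map_map, Ideal.map_map]
    congr 1
    refine RingHom.ext fun b => ?_
    exact (bc_sg hBSC i D (ζ ^ j) D' ((i ζ) ^ j) hD (map_pow i ζ j) hpwL (hpw j) b).symm
  obtain ⟨m, hm, E1, E2⟩ := norm_eq hu hc1 hc2 hS0 hSs hSp hSinj hS1 hS2 hJ1 hαβ hgM
  have hev1 : e1 (aeval (uu p r D') (g.map i)) = i (g.eval 0) := by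
    rw [he1', ← Polynomial.aeval_algHom_apply, hg1u, ← eval_map_hom i g 0, map_zero]
    rfl
  have hev2 : e2 (aeval (uu p r D') (g.map i)) = i (g.eval D) := by
    rw [he2', ← Polynomial.aeval_algHom_apply, hg2u, ← eval_map_hom i g D, hD]
    rfl
  rw [hev1] at E1
  rw [hev2] at E2
  -- the norm of `v`
  obtain ⟨ν, hν⟩ := hnu I1 hI1
  have hgD0 : g.eval D ≠ 0 := by
    intro e
    rw [e, map_zero, mul_zero, mul_zero] at E2
    exact hα2 (pow_eq_zero_iff hp.ne_zero |>.1 E2)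
  have hg00 : g.eval 0 ≠ 0 := by
    intro e
    rw [e, mul_zero] at hg0
    exact hnI1 hg0
  have hν0 : ν ≠ 0 := by
    intro e
    rw [e, zero_pow hp.ne_zero, hgD] at hν
    exact mul_ne_zero hnI1 (pow_ne_zero _ hgD0) hν
  have hodd : Odd p := hp.odd_of_ne_two (by
    have := Ok.h1 (p := p) (r := r)
    have := Ok.h2 (p := p) (r := r)
    omega)
  obtain ⟨ρ₀, hρ₀⟩ : ∃ ρ₀ : M, ρ₀ = e1 α / e1 β * (e2 β / e2 α) := ⟨_, rfl⟩
  have hρ₀0 : ρ₀ ≠ 0 := by
    rw [hρ₀]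
    exact mul_ne_zero (div_ne_zero hα1 hβ1) (div_ne_zero hβ2 hα2)
  have hρp : ρ₀ ^ p = i (g.eval 0 / g.eval D) := by
    rw [hρ₀, map_div₀, mul_pow, div_pow, div_pow, E1, E2]
    have k1 : e1 β ^ p ≠ 0 := pow_ne_zero _ hβ1
    have k2 : e2 β ^ p ≠ 0 := pow_ne_zero _ hβ2
    have k3 : i (g.eval D) ≠ 0 := (_root_.map_ne_zero i).2 hgD0
    field_simp
  refine ⟨ρ₀ ^ r, pow_ne_zero _ hρ₀0,
    ⟨(-1) ^ (g.natDegree * r) * ν⁻¹ * (s ^ (r + 1))⁻¹,
      mul_ne_zero (mul_ne_zero (pow_ne_zero _ (neg_ne_zero.2 one_ne_zero)) (inv_ne_zero hν0))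
        (inv_ne_zero (pow_ne_zero _ hs0)), ?_⟩, ?_⟩
  · rw [← pow_mul, mul_comm r p, pow_mul, hρp, ← map_pow]
    congr 1
    have k1 : ((-1 : L) ^ (g.natDegree * r)) ^ p = (-1) ^ (g.natDegree * r) := by
      rw [← pow_mul, mul_comm, pow_mul, hodd.neg_one_pow]
    have k2 : (s ^ p) ^ (r + 1) * ((s ^ (r + 1))⁻¹) ^ p = 1 := by
      rw [inv_pow, ← pow_mul, ← pow_mul, mul_comm (r + 1) p]
      exact mul_inv_cancel₀ (pow_ne_zero _ hs0)
    have k3 : (ν⁻¹) ^ p * (nm p r D I1 * nw p r D I1 ^ r) = 1 := by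
      rw [hν, inv_pow]
      exact inv_mul_cancel₀ (pow_ne_zero _ hν0)
    have k4 : ((-1 : L) ^ (g.natDegree * r)) * nm p r D I1 ^ r = g.eval 0 ^ r := by
      rw [hg0, mul_pow, ← pow_mul, ← mul_assoc, ← mul_pow, neg_one_mul, neg_neg, one_pow, one_mul]
    rw [hs, mul_pow, mul_pow, mul_pow, k1, pow_succ (nm p r D I1) r, div_pow]
    have hgr : g.eval D ^ r ≠ 0 := pow_ne_zero _ hgD0
    rw [div_eq_iff hgr, ← k4]
    rw [hgD] at k3
    have e1' : nm p r D I1 ^ r * nm p r D I1 * (s ^ p) ^ (r + 1) *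
        ((-1) ^ (g.natDegree * r) * ν⁻¹ ^ p * (s ^ (r + 1))⁻¹ ^ p) * g.eval D ^ r =
        ((-1) ^ (g.natDegree * r) * nm p r D I1 ^ r) * ((s ^ p) ^ (r + 1) * ((s ^ (r + 1))⁻¹) ^ p) *
          ((ν⁻¹) ^ p * (nm p r D I1 * g.eval D ^ r)) := by ring
    rw [e1', k2, k3, mul_one, mul_one]
  · intro τ hτb hτi hτD
    obtain ⟨θ, hθ⟩ : ∃ θ : BQ p r D' →+* BQ p r D', θ = bc p r τ D' D' hτD := ⟨_, rfl⟩
    have hθinj : Function.Injective θ := by
      rw [hθ]
      exact bc_inj τ D' D' hτD hBSC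
    have hθσ : ∀ b, θ (σ b) = σ (θ b) := by
      intro b
      rw [hθ, hσ]
      exact bc_sg hBSC τ D' (i ζ) D' (i ζ) hτD (hτi ζ) h h b
    have hIMθ : IM.map θ = IM := by
      rw [hIM, hθ]
      exact bc_fix hBSC i D D' hD τ hτD hτi I1
    have hθ1 : ∀ b, e1 (θ b) = τ (e1 b) := by
      intro b
      rw [he1', he1', hθ]
      refine ev_comp g1 g1 (bc p r τ D' D' hτD) τ (fun c => bc_alg τ D' D' hτD c) (fun x hx => ?_) b
      have hx' : x ∈ t1 p r D' := by rw [← hg1]; exact hx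
      have := bc_t1 τ D' D' hτD x hx'
      rw [← hg1] at this
      exact this
    have hθ2 : ∀ b, e2 (θ b) = τ (e2 b) := by
      intro b
      rw [he2', he2', hθ]
      refine ev_comp g2 g2 (bc p r τ D' D' hτD) τ (fun c => bc_alg τ D' D' hτD c) (fun x hx => ?_) b
      have hx' : x ∈ t2 p r D' := by rw [← hg2]; exact hx
      have := bc_t2 τ D' D' hτD x hx'
      rw [← hg2] at this
      exact this
    have hJJ : Sm J J1 := hJJ1
    rw [hker1, ← hθ]
    constructor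
    · obtain ⟨K, hK0, hK1, hK2⟩ := exK hσinj hθinj hθσ hIM0 hJ1 hIMθ ⟨a, b, ha, hb, hab⟩
      have hK3 : Sim (K.map (sg p r D' (i ζ) h)) K := by
        rw [hσ] at hK2
        exact hK2
      obtain ⟨k, hk⟩ := hAMB p r M (i ζ) h (hζ.map_of_injective i.injective) D' hD'0 K hK0 hK3
      have hk' : Sm K (t1 p r D' ^ k) := hk
      rw [hker1] at hk'
      refine ⟨k, ?_⟩
      exact (hJJ.map θ hθinj).trans (hK1.symm.trans (hJJ.symm.mul hk'))
    · intro k hk
      have hk' : Sm (J.map θ) (J * RingHom.ker e1 ^ k) := hk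
      have hk1 : Sm (J1.map θ) (J1 * RingHom.ker e1 ^ k) :=
        (hJJ.symm.map θ hθinj).trans (hk'.trans (hJJ.mul (Sm.refl _)))
      have hvx : σ (vv p r D') = algebraMap M (BQ p r D') ((i ζ) ^ r) * vv p r D' := by
        rw [hσ]
        exact sg_vv D' (i ζ) h
      have hv0 : vv p r D' ≠ 0 := by
        intro e
        rw [e, Ideal.span_singleton_eq_bot.2 rfl] at hprod'
        exact mul_ne_zero ht10' (pow_ne_zero r ht20') hprod'
      have hσP : (RingHom.ker e1).map σ = RingHom.ker e1 := by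
        have ha' : ((i ζ) ^ (p - 1)) ^ p = 1 := hpw _
        apply le_antisymm
        · rw [Ideal.map_le_iff_le_comap]
          intro b hb'
          rw [Ideal.mem_comap, RingHom.mem_ker, hσ1]
          exact hb'
        · intro b hb'
          have h1 : σ (sg p r D' ((i ζ) ^ (p - 1)) ha' b) = b := by
            rw [hσ]
            exact (sg_inv hp.ne_zero D' (i ζ) h ha' b).1
          rw [← h1]
          apply Ideal.mem_map_of_mem
          rw [RingHom.mem_ker, hS1']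
          exact hb'
      have key := rho_eq hu hc1 hc2 hσinj hθσ hσ1 hσ2 hθ1 hθ2 hv0 hvx (Q := RingHom.ker e2 ^ r) ?_ ?_ ?_
        ?_ hσP hIMθ hJ1 hJ1a hJ1b hα1 hα2 hβ1 hβ2 hαβ hk1
      · rw [← hρ₀] at key
        have h2 : (i ζ ^ r) ^ k * τ ρ₀ = ρ₀ := key.symm
        calc ρ₀ ^ r = ((i ζ ^ r) ^ k * τ ρ₀) ^ r := by rw [h2]
          _ = i ζ ^ (r ^ 2 * k) * τ (ρ₀ ^ r) := by
            rw [mul_pow, map_pow, ← pow_mul, ← pow_mul]
            congr 2
            ring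
      · rw [← hker1, ← hker2]
        exact hprod'
      · rw [← hker1, ← hker2]
        intro hle
        have hpr : (t1 p r D').IsPrime := hm1'.isPrime
        exact ht12' (hm2'.eq_of_le hm1'.ne_top (hpr.le_of_pow_le hle)).symm
      · rw [← hker1, ← hker2]
        intro hle
        exact ht12' (hm1'.eq_of_le hm2'.ne_top hle)
      · rw [← hker1]
        exact ht10'

end Pool.Agent.Q38.CF
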